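import Pool.Agent.helper61.CSW.W.SpecW

/-! csw, row NRQ (helper57): integrable differentials with simple poles at periodic points. -/

set_option autoImplicit false

open Complex Metric Set Filter Topology MeasureTheory
open YPPS (fd fdd pre TT CV IsCyc rho Exact)
open MPS (BB)
open Pool.Agent.helper98.ILF (juliaSet fatouSet)

noncomputable section

open CSS (SE SV JJ)

namespace YW

theorem NRQ_meas (Q : Finset ℂ) (r : ℂ → ℂ) : Measurable (RS Q r) := by
  show Measurable (fun z : ℂ => ∑ e ∈ Q, r e / (z - e))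
  exact Finset.measurable_fun_sum _ (fun e _ => measurable_const.div (measurable_id.sub measurable_const))

theorem NRQ_dif (Q : Finset ℂ) (r : ℂ → ℂ) : DifferentiableOn ℂ (RS Q r) ((Q : Set ℂ)ᶜ) := by
  intro z hz
  have h1 : DifferentiableAt ℂ (RS Q r) z := by
    show DifferentiableAt ℂ (fun z : ℂ => ∑ e ∈ Q, r e / (z - e)) z
    refine DifferentiableAt.fun_sum (fun e he => ?_)
    refine (differentiableAt_const _).div (differentiableAt_id.sub (differentiableAt_const _)) ?_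
    intro h
    apply hz
    have h2 : z = e := sub_eq_zero.1 h
    rw [h2]
    exact he
  exact h1.differentiableWithinAt

/-- if `TT f q = q` a.e. and `q` is integrable and admissible then the deficit vanishes a.e. -/
theorem NRQ_def (hMS : YPPS.MS_stmt) (hMCV : YPPS.MCV_stmt) (hSMB : YPPS.SMB_stmt) (f : SE) (q : ℂ → ℂ)
    (hdeg : 1 ≤ f.natDegree) (hm : Measurable q) (hi : Integrable q) (hdc : YPPS.DC q) (hT : ∀ᵐ z : ℂ, TT f q z = q z) :
    ∀ᵐ z : ℂ, YXPS.Df f q z = 0 := by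
  have hs := hSMB f q hdc
  set F : ℂ → ENNReal := fun y => ENNReal.ofReal ‖q y‖ with hF
  have hFm : Measurable F := ENNReal.measurable_ofReal.comp hm.norm
  set g : ℂ → ENNReal := fun z => ∑' y : pre f z, F y / ENNReal.ofReal (‖fd f y‖ ^ 2) with hg
  have hfdm : Measurable (fun y : ℂ => ENNReal.ofReal (‖fd f y‖ ^ 2)) :=
    ENNReal.measurable_ofReal.comp (((YPPS.fd_cont f).measurable.norm).pow_const 2)
  have hgm : Measurable g := (hMS f hdeg).1 (fun y => F y / ENNReal.ofReal (‖fd f y‖ ^ 2)) (hFm.div hfdm)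
  have hgi : ∫⁻ z : ℂ, g z = ∫⁻ y : ℂ, F y := by
    have h1 := hMCV f F univ hFm MeasurableSet.univ
    have h2 : {y : ℂ | f.eval y ∈ (univ : Set ℂ)} = univ := eq_univ_of_forall (fun y => mem_univ _)
    rw [h2, Measure.restrict_univ] at h1
    exact h1
  -- the real sum
  have hSg : ∀ z : ℂ, ENNReal.ofReal (∑' y : pre f z, ‖q y‖ / ‖fd f y‖ ^ 2) ≤ g z := by
    intro z
    rw [ENNReal.ofReal_tsum_of_nonneg (fun y => by positivity) (hs z).2]
    refine ENNReal.tsum_le_tsum (fun y => ?_)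
    rcases eq_or_ne (fd f (y : ℂ)) 0 with h0 | h0
    · rw [h0]; simp
    · rw [ENNReal.ofReal_div_of_pos (by positivity)]
  have hTS : ∀ z : ℂ, ‖TT f q z‖ ≤ ∑' y : pre f z, ‖q y‖ / ‖fd f y‖ ^ 2 := by
    intro z
    have h1 : (fun y : pre f z => ‖q y / fd f y ^ 2‖) = fun y : pre f z => ‖q y‖ / ‖fd f y‖ ^ 2 := by
      funext y; rw [norm_div, norm_pow]
    have h2 : ‖∑' y : pre f z, q y / fd f y ^ 2‖ ≤ ∑' y : pre f z, ‖q y / fd f y ^ 2‖ :=
      norm_tsum_le_tsum_norm (by rw [h1]; exact (hs z).2)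
    rw [h1] at h2
    exact h2
  have hle : F ≤ᵐ[volume] g := by
    filter_upwards [hT] with z hz
    refine le_trans ?_ (hSg z)
    have h1 := hTS z
    rw [hz] at h1
    exact ENNReal.ofReal_le_ofReal h1
  have hfin : ∫⁻ y : ℂ, F y ≠ ⊤ := by
    have h1 := hi.norm.lintegral_lt_top
    exact h1.ne
  have hae : F =ᵐ[volume] g := ae_eq_of_ae_le_of_lintegral_le hle hfin hgm.aemeasurable (le_of_eq hgi)
  filter_upwards [hT, hae] with z hz hz2
  have h1 : ENNReal.ofReal (∑' y : pre f z, ‖q y‖ / ‖fd f y‖ ^ 2) ≤ ENNReal.ofReal ‖q z‖ := by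
    have h2 := hSg z
    rw [← hz2] at h2
    exact h2
  have h3 : (∑' y : pre f z, ‖q y‖ / ‖fd f y‖ ^ 2) ≤ ‖q z‖ := (ENNReal.ofReal_le_ofReal_iff (norm_nonneg _)).1 h1
  have h4 := hTS z
  rw [hz] at h4
  show (∑' y : pre f z, ‖q y‖ / ‖fd f y‖ ^ 2) - ‖TT f q z‖ = 0
  rw [hz]
  linarith

theorem NRQ (hTIN : CSS.TIN_stmt) (hTRM : CSS.TRM_stmt) (hTRC : CSS.TRC_stmt) (hMS : YPPS.MS_stmt) (hMCV : YPPS.MCV_stmt) (hSMB : YPPS.SMB_stmt)
    (hGDU : GDU_stmt) (hDBW : DBW_stmt) (hNRP : NRP_stmt) (hRSZ : RSZ_stmt) : NRQ_stmt := by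
  intro f X E n μ w hS Q r c hQ hMZ hT
  have hqm : Measurable (RS Q r) := NRQ_meas Q r
  have hqi : Integrable (RS Q r) := hTRC ℂ Q r (fun e => e) hMZ.1 hMZ.2
  have hqd := NRQ_dif Q r
  obtain ⟨-, hTi, -, -⟩ := hTIN f (RS Q r) hqi
  have hci : Integrable (RS (ES f X) c) := (hTi.sub hqi).congr hT
  have hcm : MZ (ES f X) c := hTRM ℂ (ES f X) c (fun e => e) hci
  have hint : ∀ i, ∫ z : ℂ, μ i z * RS (ES f X) c z = 0 := by
    intro i
    have hfm := hS.fm i
    have hb1 : Integrable (fun z : ℂ => μ i z * TT f (RS Q r) z) :=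
      hTi.bdd_mul hfm.meas.aestronglyMeasurable (ae_of_all _ hfm.bd)
    have hb2 : Integrable (fun z : ℂ => μ i z * RS Q r z) :=
      hqi.bdd_mul hfm.meas.aestronglyMeasurable (ae_of_all _ hfm.bd)
    have h1 : ∫ z : ℂ, μ i z * RS (ES f X) c z = ∫ z : ℂ, (μ i z * TT f (RS Q r) z - μ i z * RS Q r z) := by
      refine integral_congr_ae ?_
      filter_upwards [hT] with z hz
      rw [← hz]; ring
    rw [h1, integral_sub hb1 hb2, hGDU f E (μ i) (w i) (RS Q r) hfm hqi]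
    have h2 := (hDBW (w i) (RS Q r) ((Q : Set ℂ)ᶜ) hfm.wc hfm.ws Q.finite_toSet.isClosed.isOpen_compl
      (fun z hz hzQ => by
        obtain ⟨hzE, m, hm1, hm2⟩ := hQ z hzQ
        exact hzE (hfm.per z hz m hm1 hm2)) hqd).2
    rw [h2]; ring
  have hc0 := hS.sp c hcm hint
  have hRS0 : ∀ z : ℂ, RS (ES f X) c z = 0 := by
    intro z
    show ∑ e ∈ ES f X, c e / (z - e) = 0
    refine Finset.sum_eq_zero (fun e he => ?_)
    rw [hc0 e he, zero_div]
  have hT2 : ∀ᵐ z : ℂ, TT f (RS Q r) z = RS Q r z := by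
    filter_upwards [hT] with z hz
    rw [hRS0 z] at hz
    exact sub_eq_zero.1 hz
  have hdc : YPPS.DC (RS Q r) := ⟨⟨(Q : Set ℂ), Q.finite_toSet, hqd⟩, 0, hqi.integrableOn⟩
  have hdeg : 1 ≤ f.natDegree := by
    show 1 ≤ (SV f).card + 2
    omega
  have hDf := NRQ_def hMS hMCV hSMB f (RS Q r) hdeg hqm hqi hdc hT2
  exact hRSZ.1 Q r (hNRP f (Q : Set ℂ) (RS Q r) Q.finite_toSet hqd hdc hT2 hDf)

end YW
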